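import Pool.Agent.Q26.JR.Prime

/-!
# Prime and almost prime values of `n ^ 2 + a` in almost all short intervals

Let `-a` be a nonsquare and let `C` be the limit of the products over the odd primes `p` of
`1 - (-a / p) / (p - 1)`, so that `C / 2` is the constant of the conjecture (for `a = 1` it is the constant `c_1`).
For all but `X ^ (2 t - h + ε)` of the `N ≤ X` the interval `(N, N + X ^ h]` has at most
`(4 / t + δ)` times the expected number `C X ^ h / (2 log X)` of integers `n` with `|n ^ 2 + a|` prime, and at least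
`(4 log (s - 1) / t - δ)` times this number of integers `n` with `n ^ 2 + a` free of prime factors below `X ^ (t / s)`.
-/

set_option autoImplicit false

namespace Pool.Agent.Results.MP_484c84_nt.AlmostAllShortIntervals

open Finset Filter Topology

/-- the product over the odd primes `p < N` of `1 - (-a / p) / (p - 1)`, with the Jacobi symbol -/
noncomputable def eulerProd (a : ℤ) (N : ℕ) : ℝ :=
  ∏ p ∈ (range N).filter (fun p : ℕ => p.Prime ∧ p ≠ 2), (1 - (jacobiSym (-a) p : ℝ) / ((p : ℝ) - 1))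

/-- the number of the `n` in `(N, N + H]` such that `|n ^ 2 + a|` is prime -/
def primeValues (a : ℤ) (N H : ℕ) : ℕ :=
  ((Ioc N (N + H)).filter (fun n : ℕ => ((n : ℤ) ^ 2 + a).natAbs.Prime)).card

open Classical in
/-- the number of the `n` in `(N, N + H]` such that `n ^ 2 + a` has no prime factor below `z` -/
noncomputable def roughValues (a : ℤ) (z : ℝ) (N H : ℕ) : ℕ :=
  ((Ioc N (N + H)).filter (fun n : ℕ => ∀ p : ℕ, p.Prime → (p : ℤ) ∣ (n : ℤ) ^ 2 + a → z ≤ p)).card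

open Classical in
theorem result (a : ℤ) (ha : ¬ IsSquare (-a)) :
    ∃ C : ℝ, 0 < C ∧ Tendsto (eulerProd a) atTop (𝓝 C) ∧
    ∀ t h s δ ε : ℝ, 1 / 2 ≤ t → t < 1 → 0 < h → h ≤ 1 → 2 ≤ s → s ≤ 4 → 0 < δ → 0 < ε →
    ∀ᶠ X : ℕ in atTop, (((Icc 1 X).filter (fun N : ℕ =>
      ¬ ((primeValues a N ⌊(X : ℝ) ^ h⌋₊ : ℝ) ≤ (4 / t + δ) * (C / 2 * ((X : ℝ) ^ h / Real.log X)) ∧
        (4 * Real.log (s - 1) / t - δ) * (C / 2 * ((X : ℝ) ^ h / Real.log X)) ≤
          (roughValues a ((X : ℝ) ^ (t / s)) N ⌊(X : ℝ) ^ h⌋₊ : ℝ)))).card : ℝ) ≤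
      (X : ℝ) ^ (2 * t - h + ε) := by
  obtain ⟨C, hC, h1, h2⟩ := Pool.Agent.Q26.JR.main a ha
  refine ⟨C, hC, h1, ?_⟩
  intro t h s δ ε g1 g2 g3 g4 g5 g6 g7 g8
  have h3 := h2 t h s (δ / 2) ε g1 g2 g3 g4 g5 g6 (by linarith) g8
  refine h3.mono (fun X hX => ?_)
  have e1 : (2 / t + δ / 2) * (C * ((X : ℝ) ^ h / Real.log X)) =
      (4 / t + δ) * (C / 2 * ((X : ℝ) ^ h / Real.log X)) := by ring
  have e2 : (2 * Real.log (s - 1) / t - δ / 2) * (C * ((X : ℝ) ^ h / Real.log X)) =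
      (4 * Real.log (s - 1) / t - δ) * (C / 2 * ((X : ℝ) ^ h / Real.log X)) := by ring
  rw [e1, e2] at hX
  exact hX

end Pool.Agent.Results.MP_484c84_nt.AlmostAllShortIntervals
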