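import Pool.Agent.Q48.RD.Rough
import Pool.Agent.TH464.PW.Quad

/-!
# Almost primes `m ^ 2 + 1` far from the primes of this form, for `m` with restricted digits

Let `g ≥ 2` be a base and `K` a large number of digits. For every `i < K` let `A i` be an arbitrary set of digits, such that the number
`|A 0| ⋯ |A (K - 1)|` of the integers `t < g ^ K` whose `i`-th digit belongs to `A i` for all `i < K` is at least `exp (- c K) g ^ K`,
where `c > 0` does not depend on the base (`Rich`). Let `N ≤ g ^ (E K)`, so that the interval `[N, N + g ^ K)` may be very short.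

(1) The number of the `m = N + t` in this interval with these `t` such that `m ^ 2 + 1` has at most `r` prime factors, all larger than
`g ^ (K / r)`, and such that no `n ≠ m` with `|n - m| ≤ L` has `n ^ 2 + 1` prime, is at least `κ |A 0| ⋯ |A (K - 1)| / K`, unless there
is an obvious obstruction (no digit `d` in `A 0` such that `(N + d) ^ 2 + 1` is prime to `g`).

(2) The number of the `m = N + t` with these `t` for which `m ^ 2 + 1` is a prime is at most `C |A 0| ⋯ |A (K - 1)| / K`.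

(3) The number of the `m = N + t` with these `t` for which both `m ^ 2 + 1` and `n ^ 2 + 1` are primes for some `n ≠ m` with
`|n - m| ≤ L` is at most `C |A 0| ⋯ |A (K - 1)| / K ^ 2`. So in such sets almost all primes `m ^ 2 + 1` are isolated, if their number
has the expected order of magnitude.

Here `L` is arbitrary and fixed, and the constants do not depend on `N` and on the sets `A i`.
-/

set_option autoImplicit false

namespace Pool.Agent.Results.MP_484c84_nt.IsolatedRestrictedDigits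

open Filter Finset Polynomial
open Pool.Agent.Q315.RD Pool.Agent.Q48.RD
open Pool.Agent.TH464.PW (quad quad_eval quad_deg quad_lead quad_irr)
open Pool.Agent.W123.RU.Poly (Sys)

lemma irr (h : ℤ) : Irreducible (quad 1 (2 * h) (h ^ 2 + 1)) := by
  apply quad_irr _ _ _ one_ne_zero
  · intro p hp h1
    have h2 : (p : ℤ) ∣ ((1 : ℕ) : ℤ) := by exact_mod_cast h1.1
    exact hp.one_lt.ne' (Nat.dvd_one.1 (Int.natCast_dvd_natCast.1 h2))
  · rintro ⟨z, hz⟩
    nlinarith [mul_self_nonneg z]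

lemma eval_eq (h n : ℤ) : (quad 1 (2 * h) (h ^ 2 + 1)).eval n = (n + h) ^ 2 + 1 := by
  rw [quad_eval]
  ring

lemma not_three (n : ℤ) : ¬ (3 : ℤ) ∣ n ^ 2 + 1 := by
  intro h
  have h1 : n % 3 = 0 ∨ n % 3 = 1 ∨ n % 3 = 2 := by omega
  have h2 : n ^ 2 % 3 = 0 ∨ n ^ 2 % 3 = 1 := by
    rcases h1 with h1 | h1 | h1 <;> simp [pow_two, Int.mul_emod, h1]
  omega

/-- the numbers `n ^ 2 + 1`, `(n + h) ^ 2 + 1` have no fixed prime divisor if `h` is even -/
lemma adm (h : ℤ) (he : Even h) (p : ℕ) (hp : p.Prime) :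
    ∃ n : ℕ, ¬ (p : ℤ) ∣ (n : ℤ) ^ 2 + 1 ∧ ¬ (p : ℤ) ∣ ((n : ℤ) + h) ^ 2 + 1 := by
  rcases Nat.lt_or_ge p 5 with h5 | h5
  · have h2 := hp.two_le
    have h3 : p = 2 ∨ p = 3 := by
      by_contra hcon
      have : p = 4 := by omega
      subst this
      revert hp
      norm_num
    rcases h3 with rfl | rfl
    · refine ⟨0, by norm_num, fun h4 => ?_⟩
      have h6 : Even (((0 : ℕ) + h) ^ 2 + 1 : ℤ) := even_iff_two_dvd.2 (by exact_mod_cast h4)
      rw [Int.even_add_one] at h6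
      apply h6
      have : Even ((0 : ℕ) + h : ℤ) := by simpa using he
      exact this.pow_of_ne_zero (by norm_num)
    · exact ⟨0, by norm_num, not_three _⟩
  · have hq : ∀ z : ℤ, (quad 1 (2 * z) (z ^ 2 + 1)).Monic := fun z => quad_lead _ _ _ one_ne_zero
    have hmon : (quad 1 (2 * 0) (0 ^ 2 + 1) * quad 1 (2 * h) (h ^ 2 + 1)).Monic := (hq 0).mul (hq h)
    obtain ⟨n, hn⟩ := Pool.Agent.Y816.PD.adm_deg hp (quad 1 (2 * 0) (0 ^ 2 + 1) * quad 1 (2 * h) (h ^ 2 + 1))
      (by rw [hmon.leadingCoeff]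
          intro h1
          have := Int.eq_one_of_dvd_one (by omega) h1
          omega)
      (by
        rw [(hq 0).natDegree_mul (hq h), quad_deg _ _ _ one_ne_zero, quad_deg _ _ _ one_ne_zero]
        omega)
    rw [eval_mul, eval_eq, eval_eq, add_zero] at hn
    exact ⟨n, fun h1 => hn (h1.mul_right _), fun h1 => hn (h1.mul_left _)⟩

/-- the system for the pairs -/
noncomputable def P2 (h : ℤ) : Fin 2 → ℤ[X] := ![quad 1 (2 * 0) (0 ^ 2 + 1), quad 1 (2 * h) (h ^ 2 + 1)]

lemma sys1 : Sys (fun _ : Fin 1 => quad 1 (2 * 0) (0 ^ 2 + 1)) where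
  irr _ := irr 0
  deg _ := by rw [quad_deg _ _ _ one_ne_zero]; norm_num
  lead _ := by rw [quad_lead _ _ _ one_ne_zero]; norm_num
  inj := fun _ _ _ => Subsingleton.elim _ _
  adm p hp := by
    obtain ⟨n, hn, -⟩ := adm 0 (by simp) p hp
    refine ⟨n, fun _ => ?_⟩
    rw [eval_eq, add_zero]
    exact hn

lemma sys2 (h : ℤ) (he : Even h) (h0 : h ≠ 0) : Sys (P2 h) where
  irr j := by fin_cases j; exacts [irr 0, irr h]
  deg j := by
    fin_cases j
    · change 0 < (quad 1 (2 * 0) (0 ^ 2 + 1)).natDegree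
      rw [quad_deg _ _ _ one_ne_zero]; norm_num
    · change 0 < (quad 1 (2 * h) (h ^ 2 + 1)).natDegree
      rw [quad_deg _ _ _ one_ne_zero]; norm_num
  lead j := by
    fin_cases j
    · change 0 < (quad 1 (2 * 0) (0 ^ 2 + 1)).leadingCoeff
      rw [quad_lead _ _ _ one_ne_zero]; norm_num
    · change 0 < (quad 1 (2 * h) (h ^ 2 + 1)).leadingCoeff
      rw [quad_lead _ _ _ one_ne_zero]; norm_num
  inj := by
    have key : quad 1 (2 * 0) (0 ^ 2 + 1) ≠ quad 1 (2 * h) (h ^ 2 + 1) := by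
      intro h1
      have h2 : (quad 1 (2 * 0) (0 ^ 2 + 1)).eval (0 : ℤ) = (quad 1 (2 * h) (h ^ 2 + 1)).eval 0 := by rw [h1]
      rw [eval_eq, eval_eq] at h2
      apply h0
      have h3 : h ^ 2 = 0 := by linarith
      exact pow_eq_zero_iff (n := 2) (by norm_num) |>.1 h3
    intro i j hij
    fin_cases i <;> fin_cases j
    · rfl
    · exact absurd hij key
    · exact absurd hij key.symm
    · rfl
  adm p hp := by
    obtain ⟨n, h1, h2⟩ := adm h he p hp
    refine ⟨n, fun j => ?_⟩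
    fin_cases j
    · change ¬ (p : ℤ) ∣ (quad 1 (2 * 0) (0 ^ 2 + 1)).eval (n : ℤ)
      rw [eval_eq, add_zero]
      exact h1
    · change ¬ (p : ℤ) ∣ (quad 1 (2 * h) (h ^ 2 + 1)).eval (n : ℤ)
      rw [eval_eq]
      exact h2

/-- the values -/
def val (h : ℤ) (n : ℕ) : ℕ := (((n : ℤ) + h) ^ 2 + 1).natAbs

lemma val_cast (h : ℤ) (n : ℕ) : ((val h n : ℕ) : ℤ) = ((n : ℤ) + h) ^ 2 + 1 := by
  unfold val
  rw [Int.natCast_natAbs, abs_of_nonneg (by positivity)]

lemma val_zero (n : ℕ) : val 0 n = n ^ 2 + 1 := by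
  have h1 := val_cast 0 n
  rw [add_zero] at h1
  exact_mod_cast h1

lemma val_nat (n m : ℕ) : val ((m : ℤ) - n) n = m ^ 2 + 1 := by
  have h1 := val_cast ((m : ℤ) - n) n
  rw [add_sub_cancel] at h1
  exact_mod_cast h1

/-- the differences which are considered -/
noncomputable def D (L : ℕ) : Finset ℤ := (Icc (-(L : ℤ)) L).filter fun h => Even h ∧ h ≠ 0

/-- **Almost primes `m ^ 2 + 1` far from the primes of this form, for `m` with restricted digits.** -/
theorem result (L E : ℕ) :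
    ∃ c : ℝ, 0 < c ∧ ∃ r₀ : ℕ, 2 ≤ r₀ ∧ ∀ r : ℕ, r₀ ≤ r → ∀ g : ℕ, 2 ≤ g → ∃ κ C : ℝ, 0 < κ ∧ 0 < C ∧
      ∀ᶠ K : ℕ in atTop, ∀ N : ℕ, L + 2 ≤ N → N ≤ g ^ (E * K) → ∀ A : ℕ → Finset ℕ, Rich c g K A →
        ((∃ d ∈ A 0, ((N + d) ^ 2 + 1).Coprime g) →
          κ * choices K A / (K : ℝ) ≤ count g K A fun t => AlmostPrime (g ^ K) r ((N + t) ^ 2 + 1) ∧
            ∀ n : ℕ, n ≠ N + t → N + t ≤ n + L → n ≤ N + t + L → ¬ (n ^ 2 + 1).Prime) ∧
        (count g K A (fun t => ((N + t) ^ 2 + 1).Prime) : ℝ) ≤ C * choices K A / (K : ℝ) ∧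
        (count g K A (fun t => ((N + t) ^ 2 + 1).Prime ∧
          ∃ n : ℕ, n ≠ N + t ∧ N + t ≤ n + L ∧ n ≤ N + t + L ∧ (n ^ 2 + 1).Prime) : ℝ) ≤
            C * choices K A / (K : ℝ) ^ 2 := by
  classical
  obtain ⟨c1, hc1, r1, hr1, h1⟩ := fixN (fun _ : Fin 1 => quad 1 (2 * 0) (0 ^ 2 + 1)) sys1 (fun _ => val 0) 0
    (fun j n _ => by rw [eval_eq, val_cast]) E
  obtain ⟨c2, hc2, r2, hr2, h2⟩ := fixNs (D L) P2
    (fun h hh => by
      have h3 := (mem_filter.1 hh).2
      exact sys2 h h3.1 h3.2)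
    (fun h => ![val 0, val h]) 0
    (fun h _ j n _ => by
      fin_cases j
      · change (quad 1 (2 * 0) (0 ^ 2 + 1)).eval (n : ℤ) = ((val 0 n : ℕ) : ℤ)
        rw [eval_eq, val_cast]
      · change (quad 1 (2 * h) (h ^ 2 + 1)).eval (n : ℤ) = ((val h n : ℕ) : ℤ)
        rw [eval_eq, val_cast]) E
  refine ⟨min c1 c2, lt_min hc1 hc2, max r1 r2, hr1.trans (le_max_left _ _), fun r hr g hg => ?_⟩
  have hr2' : 2 ≤ r := (hr1.trans (le_max_left _ _)).trans hr
  obtain ⟨κ, C1, hκ, hC1, h3⟩ := h1 r ((le_max_left _ _).trans hr) g hg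
  obtain ⟨C2, hC2, h4⟩ := h2 r ((le_max_right _ _).trans hr) g hg
  refine ⟨κ / 2, max C1 ((D L).card * C2), by positivity, lt_max_of_lt_left hC1, ?_⟩
  filter_upwards [h3, h4, removes (C := C2) (D L) hκ 1, eventually_ge_atTop (r + 1)] with K hK3 hK4 hK5 hKr
  intro N hNL hN A hA
  have hcs : (0 : ℝ) ≤ choices K A := Nat.cast_nonneg _
  obtain ⟨e1, e2⟩ := hK3 N (Nat.zero_le _) hN A (rich_mono hA (min_le_left _ _))
  have e3 := fun h hh => hK4 h hh N (Nat.zero_le _) hN A (rich_mono hA (min_le_right _ _))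
  simp only [val_zero, Fin.forall_fin_two, Matrix.cons_val_zero, Matrix.cons_val_one, Matrix.cons_val_fin_one, forall_const] at e1 e2 e3
  have h2r : 2 ^ r < g ^ K :=
    (Nat.pow_le_pow_left hg r).trans_lt (Nat.pow_lt_pow_right (by omega) (by omega))
  have hself : ∀ n : ℕ, n ≤ n ^ 2 + 1 := fun n => by
    have := Nat.le_self_pow (n := 2) (by norm_num) n
    omega
  -- the exceptions: a prime `n ^ 2 + 1` near an `m ^ 2 + 1` without small prime factors
  have key : ∀ t < g ^ K, RoughAt r t ((N + t) ^ 2 + 1) → Odd ((N + t) ^ 2 + 1) →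
      (∃ n : ℕ, n ≠ N + t ∧ N + t ≤ n + L ∧ n ≤ N + t + L ∧ (n ^ 2 + 1).Prime) →
      ∃ h ∈ D L, RoughAt r t ((N + t) ^ 2 + 1) ∧ RoughAt r t (val h (N + t)) := by
    rintro t ht hrough hodd ⟨n, hn1, hn2, hn3, hn4⟩
    refine ⟨(n : ℤ) - (N + t : ℕ), ?_, hrough, ?_⟩
    · have hm : Even (N + t) := by
        by_contra hcon
        rw [Nat.not_even_iff_odd] at hcon
        have : Even ((N + t) ^ 2 + 1) := (hcon.pow).add_one
        exact (Nat.not_even_iff_odd.2 hodd) this
      have hn : Even n := by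
        by_contra hcon
        rw [Nat.not_even_iff_odd] at hcon
        have h5 : Even (n ^ 2 + 1) := (hcon.pow).add_one
        have h6 := (Nat.Prime.even_iff hn4).1 h5
        have h7 : n ≤ n ^ 2 := Nat.le_self_pow (by norm_num) n
        have h8 : 2 ≤ n := by omega
        have h9 : 2 * 2 ≤ n ^ 2 := by nlinarith
        omega
      refine mem_filter.2 ⟨mem_Icc.2 ⟨by push_cast; omega, by push_cast; omega⟩, ?_, ?_⟩
      · rw [Int.even_sub]
        simp only [Int.even_coe_nat]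
        exact ⟨fun _ => hm, fun _ => hn⟩
      · intro h5
        apply hn1
        omega
    · rw [val_nat]
      refine roughAt_prime hr2' hn4 ?_
      by_contra hcon
      push Not at hcon
      -- `t` is larger than the prime: impossible, since `n ≥ 2` is near `N + t`
      have h7 : 2 * n ≤ n ^ 2 + 1 := by nlinarith [sq_nonneg ((n : ℤ) - 1)]
      have h8 : n ≤ n ^ 2 := Nat.le_self_pow (by norm_num) n
      omega
  refine ⟨fun hd => ?_, ?_, ?_⟩
  · have h6 := hK5 g A (fun t => AlmostPrime (g ^ K) r ((N + t) ^ 2 + 1))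
      (fun t => AlmostPrime (g ^ K) r ((N + t) ^ 2 + 1) ∧
        ∀ n : ℕ, n ≠ N + t → N + t ≤ n + L → n ≤ N + t + L → ¬ (n ^ 2 + 1).Prime)
      (fun h t => RoughAt r t ((N + t) ^ 2 + 1) ∧ RoughAt r t (val h (N + t)))
      (fun t ht hP => by
        by_cases hQ : ∀ n : ℕ, n ≠ N + t → N + t ≤ n + L → n ≤ N + t + L → ¬ (n ^ 2 + 1).Prime
        · exact Or.inl ⟨hP, hQ⟩
        · push Not at hQ
          obtain ⟨n, hn⟩ := hQ
          refine Or.inr (key t ht (roughAt_of hP ht.le) ?_ ⟨n, hn⟩)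
          by_contra hcon
          rw [Nat.not_odd_iff_even, even_iff_two_dvd] at hcon
          have := hP.1 2 Nat.prime_two hcon
          omega)
      (by
        have := e1 (by simpa using hd)
        simpa using this)
      (fun h hh => by simpa using e3 h hh)
    simpa using h6
  · refine le_trans (Nat.cast_le.2 (count_mono fun t ht hp => roughAt_prime hr2' hp ((Nat.le_add_left t N).trans (hself _)))) ?_
    refine (by simpa using e2 : _ ≤ C1 * (choices K A : ℝ) / (K : ℝ)).trans ?_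
    exact div_le_div_of_nonneg_right (mul_le_mul_of_nonneg_right (le_max_left _ _) hcs) (Nat.cast_nonneg _)
  · refine le_trans (Nat.cast_le.2 (count_mono (Q := fun t => ∃ h ∈ D L, RoughAt r t ((N + t) ^ 2 + 1) ∧
      RoughAt r t (val h (N + t))) fun t ht hp => key t ht
        (roughAt_prime hr2' hp.1 ((Nat.le_add_left t N).trans (hself _))) ?_ hp.2)) ?_
    · refine hp.1.odd_of_ne_two ?_
      have : 2 * 2 ≤ (N + t) ^ 2 := by nlinarith
      omega
    · calc (count g K A (fun t => ∃ h ∈ D L, RoughAt r t ((N + t) ^ 2 + 1) ∧ RoughAt r t (val h (N + t))) : ℝ) ≤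
          ((∑ h ∈ D L, count g K A (fun t => RoughAt r t ((N + t) ^ 2 + 1) ∧ RoughAt r t (val h (N + t))) : ℕ) : ℝ) :=
            Nat.cast_le.2 (count_exists_le (D L) g K A _)
        _ = ∑ h ∈ D L, (count g K A (fun t => RoughAt r t ((N + t) ^ 2 + 1) ∧ RoughAt r t (val h (N + t))) : ℝ) := by
            push_cast; rfl
        _ ≤ ∑ _h ∈ D L, C2 * choices K A / (K : ℝ) ^ 2 := sum_le_sum fun h hh => e3 h hh
        _ = (D L).card * C2 * choices K A / (K : ℝ) ^ 2 := by rw [sum_const, nsmul_eq_mul]; ring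
        _ ≤ _ := div_le_div_of_nonneg_right (mul_le_mul_of_nonneg_right (le_max_right _ _) hcs) (by positivity)

end Pool.Agent.Results.MP_484c84_nt.IsolatedRestrictedDigits
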