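import Pool.Agent.Q48.RD.PMom
import Pool.Agent.TH464.PW.Quad

/-!
# All moments of the number of primes `n ^ 2 + 1` in short intervals, at integers with restricted digits

Let `P₁ (N)` be the number of the `n ≤ N` for which `n ^ 2 + 1` is a prime.

Let `g ≥ 2` be a base and `K` a large number of digits. For every `i < K` let `A i` be an arbitrary set of digits, such that the number
`|A 0| ⋯ |A (K - 1)|` of the integers `t < g ^ K` whose `i`-th digit belongs to `A i` for all `i < K` is at least `exp (- c K) g ^ K`.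
Let `N ≤ g ^ (E K)` be arbitrary. We consider the numbers `x = N + t` with these `t`: they form a set with only
`y ^ (1 - δ)` elements in an interval of length `y = g ^ K`, which may be an arbitrarily small power of `x`.

Let `k ≥ 1` and `T ≤ g ^ (E K)`. The conjecture of Bateman and Horn for the `k` polynomials `(x + h_1) ^ 2 + 1, …, (x + h_k) ^ 2 + 1`,
averaged over the shifts `h_1, …, h_k ≤ T`, predicts that the mean value of `(P₁ (x + T) - P₁ (x)) ^ k` has the order of magnitude of
`(T / K) ^ k` for `T ≥ K` and of `T / K` for `T ≤ K`. We prove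

(1) the upper bound of this order, for `x` in all these sets;

(2) the exact order of magnitude for the numbers `n` in `(x, x + T]` for which `n ^ 2 + 1` is an almost prime;

(3) that a positive proportion (for `T ≤ K`: the expected proportion `T / K`) of the intervals `(x, x + T]` contains the
expected number of such `n`.

There is no condition on `N` and on the sets of digits, and the constants do not depend on them.
-/

set_option autoImplicit false

namespace Pool.Agent.Results.MP_484c84_nt.MomentsInShortIntervals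

open Filter Finset
open Pool.Agent.Q315.RD Pool.Agent.Q48.RD
open Pool.Agent.TH464.PW (quad quad_irr quad_deg quad_lead quad_eval quad_adm)

/-- The number of the `n` with `1 ≤ n ≤ N` for which `n ^ 2 + 1` is a prime. -/
def P₁ (N : ℕ) : ℕ := ((Icc 1 N).filter fun n => (n ^ 2 + 1).Prime).card

open Classical in
/-- The number of the `n` with `x < n ≤ x + T` for which `n ^ 2 + 1` has at most `r` prime factors, all larger than `y ^ (1 / r)`. -/
noncomputable def almostPrimesIn (y r x T : ℕ) : ℕ := ((Ioc x (x + T)).filter fun n => AlmostPrime y r (n ^ 2 + 1)).card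

open Classical in
/-- The integers `t < g ^ K` whose `i`-th digit belongs to `A i` for all `i < K`. -/
noncomputable def digitSet (g K : ℕ) (A : ℕ → Finset ℕ) : Finset ℕ := (range (g ^ K)).filter (HasDigits g K A)

/-- The predicted order of magnitude of the mean value of the `k`-th power: `T / K` for `T ≤ K` and `(T / K) ^ k` for `T ≥ K`. -/
noncomputable def order (k T K : ℕ) : ℝ := min 1 ((T : ℝ) / K) * max 1 ((T : ℝ) / K) ^ k

lemma P₁_add (x T : ℕ) : P₁ (x + T) = P₁ x + numIn (fun n => (n ^ 2 + 1).Prime) x T := by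
  classical
  unfold P₁ numIn
  have h : (Icc 1 (x + T)).filter (fun n => (n ^ 2 + 1).Prime) =
      (Icc 1 x).filter (fun n => (n ^ 2 + 1).Prime) ∪ (Ioc x (x + T)).filter (fun n => (n ^ 2 + 1).Prime) := by
    rw [← filter_union]
    congr 1
    ext n
    simp only [mem_union, mem_Icc, mem_Ioc]
    omega
  rw [h, card_union_of_disjoint]
  · congr!
  · rw [disjoint_left]
    intro n hn hn2
    have h1 := mem_Icc.1 (mem_filter.1 hn).1
    have h2 := mem_Ioc.1 (mem_filter.1 hn2).1
    omega

/-- **All moments of the number of primes `n ^ 2 + 1` in short intervals at integers with restricted digits.** -/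
theorem result (k : ℕ) (hk : 1 ≤ k) (E : ℕ) :
    ∃ c : ℝ, 0 < c ∧ ∃ r₀ : ℕ, 2 ≤ r₀ ∧ ∀ r : ℕ, r₀ ≤ r → ∀ g : ℕ, 2 ≤ g → ∃ κ C : ℝ, 0 < κ ∧ 0 < C ∧
      ∀ᶠ K : ℕ in atTop, ∀ N T : ℕ, N ≤ g ^ (E * K) → 1 ≤ T → T ≤ g ^ (E * K) →
        ∀ A : ℕ → Finset ℕ, (∀ i < K, A i ⊆ range g) → (g : ℝ) ^ K ≤ Real.exp (c * K) * choices K A →
        -- the primes
        ∑ t ∈ digitSet g K A, ((P₁ (N + t + T) : ℝ) - P₁ (N + t)) ^ k ≤ C * order k T K * choices K A ∧
        -- the almost primes
        ∑ t ∈ digitSet g K A, (almostPrimesIn (g ^ K) r (N + t) T : ℝ) ^ k ≤ C * order k T K * choices K A ∧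
        (g ≤ T →
          κ * order k T K * choices K A ≤ ∑ t ∈ digitSet g K A, (almostPrimesIn (g ^ K) r (N + t) T : ℝ) ^ k ∧
          κ * min 1 ((T : ℝ) / K) * choices K A ≤
            (((digitSet g K A).filter fun t => κ * max 1 ((T : ℝ) / K) ≤ almostPrimesIn (g ^ K) r (N + t) T).card : ℝ)) := by
  classical
  have hg : ∀ p : ℕ, p.Prime → ¬ ((p : ℤ) ∣ 1 ∧ (p : ℤ) ∣ 0 ∧ (p : ℤ) ∣ 1) := by
    intro p hp h
    have h1 := Int.le_of_dvd one_pos h.1
    have := hp.one_lt
    omega
  obtain ⟨c, hc, r0, hr0, H⟩ := polyMoments (l := 1) (fun _ => quad 1 0 1)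
    { irr := fun _ => quad_irr 1 0 1 one_ne_zero hg (by
        rintro ⟨z, hz⟩
        have : 0 ≤ z * z := mul_self_nonneg z
        omega)
      deg := fun _ => by rw [quad_deg 1 0 1 one_ne_zero]; norm_num
      lead := fun _ => by rw [quad_lead 1 0 1 one_ne_zero]; norm_num
      inj := fun i j _ => Subsingleton.elim i j
      adm := fun p hp => by
        obtain ⟨m, hm⟩ := quad_adm 1 0 1 hg (by
          rintro ⟨h, _⟩
          revert h
          decide) p hp
        exact ⟨m, fun _ => hm⟩ }
    (fun i j hij => absurd (Subsingleton.elim i j) hij)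
    (fun _ n => n ^ 2 + 1) 0 (fun _ n _ => by rw [quad_eval]; push_cast; ring)
    (fun _ n _ => by nlinarith) k hk E
  refine ⟨c, hc, r0, hr0, fun r hr g hg => ?_⟩
  obtain ⟨κ, C, hκ, hC, H⟩ := H r hr g hg
  refine ⟨κ, C, hκ, hC, ?_⟩
  filter_upwards [H] with K HK
  intro N T hN hT1 hT A hA1 hA2
  obtain ⟨h1, h2, h3⟩ := HK N T (Nat.zero_le _) hN hT1 hT A ⟨hA1, hA2⟩
  rw [pow_one] at h1 h2 h3
  have e1 : ∀ x, ((P₁ (x + T) : ℝ) - P₁ x) = numIn (fun n => ∀ _ : Fin 1, (n ^ 2 + 1).Prime) x T := by
    intro x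
    rw [P₁_add]
    push_cast
    rw [add_sub_cancel_left]
    apply congrArg
    exact le_antisymm (numIn_mono fun n _ h _ => h) (numIn_mono fun n _ h => h 0)
  have e2 : ∀ x, almostPrimesIn (g ^ K) r x T = numIn (fun n => ∀ _ : Fin 1, AlmostPrime (g ^ K) r (n ^ 2 + 1)) x T := by
    intro x
    have e : almostPrimesIn (g ^ K) r x T = numIn (fun n => AlmostPrime (g ^ K) r (n ^ 2 + 1)) x T := rfl
    rw [e]
    exact le_antisymm (numIn_mono fun n _ h _ => h) (numIn_mono fun n _ h => h 0)
  simp only [e1, e2]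
  refine ⟨h1, h2, fun hgT => ⟨(h3 hgT).1, (h3 hgT).2.trans (le_of_eq ?_)⟩⟩
  unfold count digitSet
  rw [filter_filter]

end Pool.Agent.Results.MP_484c84_nt.MomentsInShortIntervals
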